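import Pool.Agent.Helper17.DF.Geo

/-!
DG-2: a closed dual walk of length four gives a cut.
-/

set_option autoImplicit false

namespace Pool.Agent.Helper17.CT
open Function

section
variable {D : Type} [Finite D] {M : CMap D}

private theorem dual4_parity (g : Fin 4 → Bool) :
    2 ∣ (Finset.univ.filter (fun i : Fin 4 => (g i ^^ g (i + 1)) = true)).card := by
  revert g
  decide

private theorem dual4_face {φ : D → Bool} (hφ : ∀ d, φ (M.f d) = φ d) {x y : D}
    (h : M.Face x y) : φ y = φ x := by
  obtain ⟨n, rfl⟩ := h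
  induction n with
  | zero => rfl
  | succ n ih => rw [Function.iterate_succ_apply', hφ, ih]

/-- DG-2 -/
theorem dual4 (hN : Nice M) (c : Fin 4 → D) (h : ∀ i, M.Face (M.a (c i)) (c (i + 1)))
    (hd : ∀ i j, i ≠ j → c i ≠ c j ∧ c i ≠ M.a (c j)) :
    ∃ X : D → Bool, M.VSet X ∧ ∀ d, X d ≠ X (M.a d) ↔ ∃ i, d = c i ∨ d = M.a (c i) := by
  classical
  have hC : ∀ d, decide (∃ i, M.a d = c i ∨ M.a d = M.a (c i)) =
      decide (∃ i, d = c i ∨ d = M.a (c i)) := by
    intro d
    have : (∃ i, M.a d = c i ∨ M.a d = M.a (c i)) ↔ (∃ i, d = c i ∨ d = M.a (c i)) := by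
      constructor
      · rintro ⟨i, hi | hi⟩
        · exact ⟨i, Or.inr (by rw [← hi, M.a2])⟩
        · exact ⟨i, Or.inl (by rw [← M.a2 d, hi, M.a2])⟩
      · rintro ⟨i, hi | hi⟩
        · exact ⟨i, Or.inr (by rw [hi])⟩
        · exact ⟨i, Or.inl (by rw [hi, M.a2])⟩
    simp only [this]
  obtain ⟨X, hX, hXC⟩ := cut_of_orth M (fun d => decide (∃ i, d = c i ∨ d = M.a (c i))) hC (by
    intro Z hZ
    obtain ⟨φ, hφ, hZφ⟩ := hN.pl Z hZ
    have hval : ∀ i, Z (c i) = (φ (c i) ^^ φ (c (i + 1))) := by
      intro i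
      rw [hZφ, dual4_face hφ (h i)]
    have hcard : Nat.card {d : D // Z d = true ∧ decide (∃ i, d = c i ∨ d = M.a (c i)) = true} =
        Nat.card ({i : Fin 4 // (φ (c i) ^^ φ (c (i + 1))) = true} × Bool) := by
      symm
      refine Nat.card_congr (Equiv.ofBijective
        (fun p => ⟨if p.2 then M.a (c p.1.1) else c p.1.1, ?_, ?_⟩) ⟨?_, ?_⟩)
      · have hz : Z (c p.1.1) = true := by rw [hval]; exact p.1.2
        by_cases h2 : p.2
        · rw [if_pos h2, hZ.1]; exact hz
        · rw [if_neg h2]; exact hz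
      · rw [decide_eq_true_iff]
        by_cases h2 : p.2
        · rw [if_pos h2]; exact ⟨_, Or.inr rfl⟩
        · rw [if_neg h2]; exact ⟨_, Or.inl rfl⟩
      · rintro ⟨⟨i, hi⟩, b⟩ ⟨⟨j, hj⟩, b'⟩ hij
        simp only [Subtype.mk.injEq] at hij
        have key : i = j := by
          by_contra hne
          obtain ⟨h1, h2⟩ := hd i j hne
          obtain ⟨_, h4⟩ := hd j i (Ne.symm hne)
          cases b <;> cases b' <;> simp at hij
          · exact h1 hij
          · exact h2 hij
          · exact h4 hij.symm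
          · exact h1 (by rw [← M.a2 (c i), hij, M.a2])
        subst key
        cases b <;> cases b' <;> simp at hij ⊢
        · exact M.a1 _ hij.symm
        · exact M.a1 _ hij
      · rintro ⟨d, hz, hd'⟩
        rw [decide_eq_true_iff] at hd'
        obtain ⟨i, hi⟩ := hd'
        have hzi : Z (c i) = true := by
          rcases hi with hi | hi
          · rw [← hi]; exact hz
          · rw [← hZ.1, ← hi]; exact hz
        rw [hval] at hzi
        rcases hi with hi | hi
        · exact ⟨⟨⟨i, hzi⟩, false⟩, Subtype.ext (by simp [hi])⟩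
        · exact ⟨⟨⟨i, hzi⟩, true⟩, Subtype.ext (by simp [hi])⟩
    rw [hcard, Nat.card_prod, Nat.card_eq_fintype_card, Fintype.card_subtype,
      Nat.card_eq_fintype_card (α := Bool), Fintype.card_bool]
    have h2 := dual4_parity (fun i => φ (c i))
    obtain ⟨k, hk⟩ := h2
    exact ⟨k, by rw [hk]; ring⟩)
  refine ⟨X, hX, fun d => ?_⟩
  have h1 := hXC d
  constructor
  · intro hne
    have : (X d ^^ X (M.a d)) = true := by
      revert hne
      cases X d <;> cases X (M.a d) <;> simp
    rw [← h1, decide_eq_true_iff] at this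
    exact this
  · intro hex
    have : (X d ^^ X (M.a d)) = true := by
      rw [← h1, decide_eq_true_iff]
      exact hex
    revert this
    cases X d <;> cases X (M.a d) <;> simp

theorem const_face (X : D → Bool) (hX : M.VSet X) {x : D}
    (h : ∀ y, M.Face x y → X y = X (M.a y)) {y : D} (hy : M.Face x y) :
    X y = X x ∧ X (M.a y) = X x := by
  have key : ∀ n : ℕ, X ((M.f)^[n] x) = X x := by
    intro n
    induction n with
    | zero => rfl
    | succ n ih =>
      rw [Function.iterate_succ_apply']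
      show X (M.s (M.a ((M.f)^[n] x))) = X x
      rw [hX, ← h _ ⟨n, rfl⟩, ih]
  obtain ⟨n, rfl⟩ := hy
  exact ⟨key n, by rw [← h _ ⟨n, rfl⟩, key n]⟩

end

end Pool.Agent.Helper17.CT
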